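import Pool.Agent.W809.JS.Stm

/-!
# Limits of translates, uniform lower bound (project JN)
-/

set_option autoImplicit false

open MeasureTheory Filter Topology Set Metric Real
open Pool.Agent.Results.MP_5c297c_an.NotJessen Pool.Agent.W809.JS

namespace Pool.Agent.W872.JS

theorem nv : S_NV := by
  intro n f g p R R' hR' hRR hAP hf h hconv
  obtain ⟨z1, hz1, hne⟩ := hf
  have hα : 0 < ‖f z1‖ := norm_pos_iff.2 hne
  obtain ⟨l, hl, hper⟩ := hAP (‖f z1‖ / 4) (by positivity)
  obtain ⟨N, hN⟩ := hconv (‖f z1‖ / 4) (by positivity)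
  obtain ⟨τ, hτ, hτ2⟩ := hper (h N)
  have hz1R : z1 ∈ tube (ball p R) := ball_subset_ball hRR hz1
  have h1 := hτ2 z1 hz1R
  set w : Fin n → ℂ := z1 + cpt (τ - h N) 0 with hw
  have hwim : imPart w = imPart z1 := by
    rw [hw, imPart_add, imPart_cpt, add_zero]
  have hwt : w ∈ tube (ball p R') := by
    show imPart w ∈ ball p R'
    rw [hwim]
    exact hz1
  have hw2 : w + cpt (h N) 0 = z1 + cpt τ 0 := by
    rw [hw, add_assoc, cpt_add]
    simp
  have h2 := hN N le_rfl w hwt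
  rw [hw2] at h2
  refine ⟨w, hwt, fun h0 => ?_⟩
  rw [h0, sub_zero] at h2
  have h3 : ‖f z1‖ ≤ ‖f (z1 + cpt τ 0)‖ + ‖f (z1 + cpt τ 0) - f z1‖ := by
    have := norm_sub_le (f (z1 + cpt τ 0)) (f (z1 + cpt τ 0) - f z1)
    simpa using this
  linarith

theorem low : S_HULL → S_NV → S_LOW := by
  intro hHull hNV n f p R M r hr hrR hM hHol hAP hf
  by_contra hcon
  push Not at hcon
  have hcon' : ∀ m : ℕ, ∃ h : Fin n → ℝ, ∀ z ∈ closedBall (cpt h p) r,
      ‖f z‖ < 1 / ((m : ℝ) + 1) := fun m => hcon _ (by positivity)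
  choose h hh using hcon'
  set R' : ℝ := (r + R) / 2 with hR'def
  have hR'1 : r < R' := by rw [hR'def]; linarith
  have hR'2 : R' < R := by rw [hR'def]; linarith
  have hR'0 : 0 < R' := hr.trans hR'1
  obtain ⟨σ, g, hσ, hg, hconv⟩ := hHull n f p R M R' hR'0 hR'2 hM hHol hAP h
  -- `g` vanishes near the centre
  have hsub : ∀ z ∈ closedBall (cpt (0 : Fin n → ℝ) p) r, z ∈ tube (ball p R') := by
    intro z hz
    show imPart z ∈ ball p R'
    rw [mem_ball, dist_eq_norm]
    have e : imPart z - p = imPart (z - cpt 0 p) := by rw [imPart_sub, imPart_cpt]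
    rw [e]
    rw [mem_closedBall, dist_eq_norm] at hz
    exact lt_of_le_of_lt (norm_imPart_le _) (lt_of_le_of_lt hz hR'1)
  have hg0 : ∀ z ∈ closedBall (cpt (0 : Fin n → ℝ) p) r, g z = 0 := by
    intro z hz
    by_contra hne
    have hpos : 0 < ‖g z‖ := norm_pos_iff.2 hne
    obtain ⟨N, hN⟩ := hconv (‖g z‖ / 4) (by positivity)
    obtain ⟨K, hK⟩ := exists_nat_one_div_lt (show (0 : ℝ) < ‖g z‖ / 4 by positivity)
    set k := max N K with hk
    have h1 := hN k (le_max_left _ _) z (hsub z hz)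
    have hmem : z + cpt (h (σ k)) 0 ∈ closedBall (cpt (h (σ k)) p) r := by
      rw [mem_closedBall, dist_eq_norm] at hz ⊢
      have e : z + cpt (h (σ k)) 0 - cpt (h (σ k)) p = z - cpt 0 p := by
        have : cpt (h (σ k)) p = cpt 0 p + cpt (h (σ k)) 0 := by
          rw [cpt_add]; simp
        rw [this]
        abel
      rw [e]
      exact hz
    have h2 := hh (σ k) _ hmem
    have h3 : (1 : ℝ) / ((σ k : ℝ) + 1) ≤ 1 / ((K : ℝ) + 1) := by
      apply one_div_le_one_div_of_le (by positivity)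
      have : (K : ℝ) ≤ (σ k : ℝ) := by
        exact_mod_cast (le_max_right N K).trans (hσ.id_le k)
      linarith
    have h4 : ‖g z‖ ≤ ‖f (z + cpt (h (σ k)) 0)‖ + ‖f (z + cpt (h (σ k)) 0) - g z‖ := by
      have := norm_sub_le (f (z + cpt (h (σ k)) 0)) (f (z + cpt (h (σ k)) 0) - g z)
      simpa using this
    linarith
  -- `f` does not vanish identically on the smaller tube
  have hf' : ∃ z ∈ tube (ball p R'), f z ≠ 0 := by
    have hc : cpt (0 : Fin n → ℝ) p ∈ tube (ball p R) := by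
      show imPart (cpt 0 p) ∈ ball p R
      rw [imPart_cpt]
      exact mem_ball_self (hR'0.trans hR'2)
    obtain ⟨z1, hz1, hne1⟩ := hf
    obtain ⟨z, hz, hzne⟩ := exists_ne_zero_near (isOpen_tube isOpen_ball)
      (convex_tube (convex_ball p R)) hHol.2.1 hz1 hne1 hc hr
    exact ⟨z, hsub z (ball_subset_closedBall hz), hzne⟩
  obtain ⟨z, hz, hzne⟩ := hNV n f g p R R' hR'0 hR'2.le hAP hf' (h ∘ σ) hconv
  have hc : cpt (0 : Fin n → ℝ) p ∈ tube (ball p R') := by
    show imPart (cpt 0 p) ∈ ball p R'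
    rw [imPart_cpt]
    exact mem_ball_self hR'0
  obtain ⟨z2, hz2, hz2ne⟩ := exists_ne_zero_near (isOpen_tube isOpen_ball)
    (convex_tube (convex_ball p R')) hg.2.1 hz hzne hc hr
  exact hz2ne (hg0 z2 (ball_subset_closedBall hz2))

end Pool.Agent.W872.JS
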